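import Pool.Agent.Run7.h184.REG.Defs
import Pool.Agent.Run7.h184.AJ.Main

/-!
# The law for the kernels and the cokernels of the regulators of all powers
-/

set_option autoImplicit false
set_option linter.unusedSectionVars false

open CategoryTheory Limits MonoidalCategory Module Filter Topology
open Pool.Agent.Y112.SR Pool.Agent.Y112.KD Pool.Agent.N64.AF
open Pool.Agent.Run7.h184.AJ Pool.Agent.Run7.h184.AJ.TrivialIdeal
open scoped ENNReal

namespace Pool.Agent.Run7.h184.REG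

universe v u w t

variable {C : Type u} [Category.{v} C] [Preadditive C] [MonoidalCategory C]
  [MonoidalPreadditive C] [SymmetricCategory C] [RightRigidCategory C]
  {Λ : Type t} [Field Λ] [CharZero Λ] [Linear Λ C] [MonoidalLinear Λ C]
  {K : Type w} [Field K] [IsAlgClosed K] [Algebra Λ K] {R : SuperRealisation C K}

namespace Regulator

variable {I : TrivialIdeal Λ R} (A : Regulator I)

/-- The action of compositions. -/
theorem action {T : C} [ExactPairing T T] (h : IsPow Λ R T) {k : ℕ}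
    (hk : RatioTo Λ T (fun n => kerDim A.r (tp T n)) k) : A.NilpotentAction T (k + 1) := by
  obtain ⟨-, hst⟩ := structure_thm h (kerF A.r) hk
  intro a b f hf
  obtain ⟨c, g, f₂, hg, hf₂, rfl⟩ := JPow.head I k hf
  have h1 := hst c b f₂ (JPow.num I h.real k hf₂)
  ext x
  have h2 : (A.r.app (tp T c)).hom ((A.M.map g).hom x) = 0 := by
    have h0 := congrArg (fun q : A.M.obj (tp T a) ⟶ A.D.obj (tp T c) => q.hom x)
      (A.r.naturality g)
    refine Eq.trans h0 ?_
    rw [A.factors hg]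
    rfl
  have h3 := congrArg (fun q : (kerF A.r).obj (tp T c) ⟶ (kerF A.r).obj (tp T b) =>
    q.hom (show (kerF A.r).obj (tp T c) from
      (⟨(A.M.map g).hom x, h2⟩ : LinearMap.ker (A.r.app (tp T c)).hom))) h1
  have h4 : (A.M.map f₂).hom ((A.M.map g).hom x) = 0 :=
    congrArg (fun z : (kerF A.r).obj (tp T b) =>
      (show LinearMap.ker (A.r.app (tp T b)).hom from z).1) h3
  rw [A.M.map_comp]
  exact h4

/-- **The law.** -/
theorem main {T : C} [ExactPairing T T] (h : IsPow Λ R T) :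
    (∃ Nmot Ndel Nker Ncok : ℕ∞, RatioTo Λ T (fun n => dimE Λ (A.M.obj (tp T n))) Nmot ∧
      RatioTo Λ T (fun n => dimE Λ (A.D.obj (tp T n))) Ndel ∧
      RatioTo Λ T (fun n => kerDim A.r (tp T n)) Nker ∧
      RatioTo Λ T (fun n => cokerDim A.r (tp T n)) Ncok ∧
      Nmot + Ncok = Ndel + Nker ∧ (Nker = 0 ↔ ∀ n, A.Inj (tp T n)) ∧
      (Ncok = 0 ↔ ∀ n, A.Onto (tp T n)) ∧
      ∀ k : ℕ, Nker = k → A.NilpotentAction T (k + 1)) ∧
    ∀ m n : ℕ, 128 * (m + 1) ^ 2 * bt R T ^ (2 * m + 6) ≤ 2 * n →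
      (¬ A.Inj (tp T m) → Large Λ R T n (kerDim A.r (tp T (2 * n)))) ∧
      (¬ A.Onto (tp T m) → Large Λ R T n (cokerDim A.r (tp T (2 * n)))) := by
  obtain ⟨Nch, a1, -⟩ := law h A.M
  obtain ⟨Nsel, b1, -⟩ := law h A.D
  obtain ⟨Nker, c1, c2, -⟩ := law h (kerF A.r)
  obtain ⟨Ncok, d1, d2, -⟩ := law h (cokF A.r)
  refine ⟨⟨Nch, Nsel, Nker, Ncok, a1, b1, c1, d1, ?_,
    c2.trans (forall_congr' fun n => sub_ker A.r _),
    d2.trans (forall_congr' fun n => sub_cok A.r _), ?_⟩, fun m n hn => ⟨fun hm => ?_, fun hm => ?_⟩⟩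
  · have e1 := a1.add d1
    have e2 := b1.add c1
    have e3 : ∀ n, ((dimE Λ (A.M.obj (tp T n)) : ℕ∞) : ℝ≥0∞) / numRank Λ (tp T n) +
        ((dimE Λ ((cokF A.r).obj (tp T n)) : ℕ∞) : ℝ≥0∞) / numRank Λ (tp T n) =
        ((dimE Λ (A.D.obj (tp T n)) : ℕ∞) : ℝ≥0∞) / numRank Λ (tp T n) +
        ((dimE Λ ((kerF A.r).obj (tp T n)) : ℕ∞) : ℝ≥0∞) / numRank Λ (tp T n) := by
      intro n
      have e4 := congrArg (fun z : ℕ∞ => (z : ℝ≥0∞)) (dim_sum A.r (tp T n))
      simp only [ENat.toENNReal_add] at e4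
      rw [← ENNReal.add_div, ← ENNReal.add_div]
      congr 1
    have e5 := tendsto_nhds_unique (e1.congr e3) e2
    exact_mod_cast e5
  · rintro k rfl
    exact A.action h c1
  · exact gap h (kerF A.r) hn fun hs => hm ((sub_ker A.r _).1 hs)
  · exact gap h (cokF A.r) hn fun hs => hm ((sub_cok A.r _).1 hs)

end Regulator

end Pool.Agent.Run7.h184.REG
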