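import Pool.Agent.Run7.h184.AJ.Defs

/-!
# Regulators in a tensor category: definitions

In the intended use the objects of `C` are the smooth projective varieties over `ℚ`, the morphisms
from `Y` to `Z` are the elements of `CH^*(Y × Z) ⊗ ℝ` (all codimensions), `Λ = ℝ`, and `R` is the
singular cohomology with complex coefficients.
-/

set_option autoImplicit false

open CategoryTheory Limits MonoidalCategory Module
open Pool.Agent.Y112.SR Pool.Agent.Y112.KD Pool.Agent.N64.AF
open Pool.Agent.Run7.h184.AJ

namespace Pool.Agent.Run7.h184.REG

universe v u w t

variable {C : Type u} [Category.{v} C] [Preadditive C] [MonoidalCategory C]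
  [SymmetricCategory C]

/-- The data of a regulator, for a fixed number `m ≥ 2` (the index of the `K`-group): `M Y` is the sum
of the integral motivic cohomology groups `H^(2 q - m)_M(Y, ℚ(q))_ℤ ⊗ ℝ` over all `q` (the integral part
of `K_m(Y) ⊗ ℝ`), `D Y` is the sum of the real Deligne-Beilinson cohomology groups
`H^(2 q - m)_D(Y_ℝ, ℝ(q))` over all `q`, and `r` is Beilinson's regulator. Homologically trivial
correspondences act as zero on the Deligne-Beilinson cohomology in this range (it is a functor of
the Hodge structures with the infinite Frobenius), and the regulator is compatible with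
correspondences (`r` is a natural transformation). -/
structure Regulator {Λ : Type t} [Field Λ] [Linear Λ C] {K : Type w} [Field K]
    {R : SuperRealisation C K} (I : TrivialIdeal Λ R) where
  /-- the integral motivic cohomology -/
  M : C ⥤ ModuleCat.{v} Λ
  [additiveM : M.Additive]
  [linearM : M.Linear Λ]
  /-- the Deligne-Beilinson cohomology -/
  D : C ⥤ ModuleCat.{v} Λ
  [additiveD : D.Additive]
  [linearD : D.Linear Λ]
  factors : ∀ {Y Z : C} {f : Y ⟶ Z}, f ∈ I.J Y Z → D.map f = 0
  /-- the regulator -/
  r : M ⟶ D

attribute [instance] Regulator.additiveM Regulator.linearM Regulator.additiveD Regulator.linearD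

namespace Regulator

variable {Λ : Type t} [Field Λ] [Linear Λ C] {K : Type w} [Field K] {R : SuperRealisation C K}
  {I : TrivialIdeal Λ R} (A : Regulator I)

/-- The regulator of `Y` is injective. -/
def Inj (Y : C) : Prop := Function.Injective (A.r.app Y)

/-- The regulator of `Y` is onto. -/
def Onto (Y : C) : Prop := Function.Surjective (A.r.app Y)

/-- Each composition of `k` homologically trivial morphisms between powers of `T` acts as zero on the
motivic cohomology. -/
def NilpotentAction (T : C) (k : ℕ) : Prop :=
  ∀ (a b : ℕ) (f : tp T a ⟶ tp T b), I.JPow T k f → A.M.map f = 0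

end Regulator

end Pool.Agent.Run7.h184.REG
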